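import Mathlib
import Pool.Agent.Lib.H87N.Defs
import Pool.Agent.Lib.H87N.T00
import Pool.Agent.Lib.H87N.Z08

/-!
# Noetherian groups which are not `𝒮`-well-founded: the structure of a counterexample

A Noetherian t.d.l.c.s.c. group `G` fails to be `𝒮`-well-founded if and only if there are infinite
sequences `H 0 ≥ H 1 ≥ ...` and `C 0 ≥ C 1 ≥ ...` of subgroups with: `H n` is open and noncompact and
`H (n + 1)` has infinite index in `H n`; `C n` is a nontrivial closed cocompact normal subgroup of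
`H n` without proper open normal subgroups; for every open subgroup `U` of `G`, `C (n + 1) ∩ U` has
infinite index in `C n ∩ U`; `C (n + 1)` is contained in every closed normal subgroup `N` of `C n`
with `C n / N` in `𝒮`, and fixes every vertex of every locally finite tree on which `H n` acts with
open vertex stabilisers.
-/

set_option autoImplicit false

namespace Pool.Agent.Results.MP_14eb16_al.DescendingPairs

open Pool.H87N

/-- `Γ` acts by automorphisms on the locally finite tree `T`, with open vertex stabilisers. -/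
structure ActsOnTree (Γ V : Type) [Group Γ] [TopologicalSpace Γ] [MulAction Γ V]
    (T : SimpleGraph V) : Prop where
  /-- `T` is a tree. -/
  tree : T.IsTree
  /-- Every vertex has finitely many neighbours. -/
  lf : ∀ v : V, (T.neighborSet v).Finite
  /-- `Γ` acts by automorphisms. -/
  adj : ∀ (g : Γ) (v w : V), T.Adj v w → T.Adj (g • v) (g • w)
  /-- The vertex stabilisers are open. -/
  stab : ∀ v : V, IsOpen {g : Γ | g • v = v}

/-- The pairs of sequences. -/
structure Pair {G : Type} [Group G] [TopologicalSpace G] (H C : ℕ → Subgroup G) : Prop where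
  /-- `H n` is open. -/
  openH : ∀ n, IsOpen (H n : Set G)
  /-- `H n` is not compact. -/
  noncompact : ∀ n, ¬ IsCompact (H n : Set G)
  /-- The sequence `H` is descending. -/
  leH : ∀ n, H (n + 1) ≤ H n
  /-- `H (n + 1)` has infinite index in `H n`. -/
  indexH : ∀ n, (H (n + 1)).relIndex (H n) = 0
  /-- `C n` is closed. -/
  closed : ∀ n, IsClosed (C n : Set G)
  /-- `C n` is not trivial. -/
  ne_bot : ∀ n, C n ≠ ⊥
  /-- `H n` is generated by `C n` and a compact open subgroup. -/
  cocompact : ∀ n, ∃ W : Subgroup G, IsOpen (W : Set G) ∧ IsCompact (W : Set G) ∧ H n = C n ⊔ W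
  /-- `C n` is normal in `H n`. -/
  normal : ∀ n, ∀ h ∈ H n, ∀ x ∈ C n, h * x * h⁻¹ ∈ C n
  /-- `C n` has no proper open normal subgroups. -/
  perf : ∀ n, ∀ N : Subgroup ↥(C n), N.Normal → IsOpen (N : Set ↥(C n)) → N = ⊤
  /-- The sequence `C` is descending. -/
  leC : ∀ n, C (n + 1) ≤ C n
  /-- `C (n + 1) ∩ U` has infinite index in `C n ∩ U`, for every open subgroup `U`. -/
  indexC : ∀ n, ∀ U : Subgroup G, IsOpen (U : Set G) → (C (n + 1) ⊓ U).relIndex (C n ⊓ U) = 0
  /-- `C (n + 1)` is contained in every closed normal `N` in `C n` with `C n / N` in `𝒮`. -/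
  ker : ∀ n, ∀ N : Subgroup G, SKer (C n) N → C (n + 1) ≤ N
  /-- `C (n + 1)` acts trivially on every locally finite tree on which `H n` acts. -/
  trees : ∀ n, ∀ (V : Type) [MulAction (H n) V] (T : SimpleGraph V), ActsOnTree (H n) V T →
    ∀ g : H n, (g : G) ∈ C (n + 1) → ∀ v : V, g • v = v

theorem result (G : Type) [Group G] [TopologicalSpace G] (hG : Tdlcsc G) (hN : Noeth G) :
    ¬ SWF G ↔ ∃ H C : ℕ → Subgroup G, Pair H C := by
  have := hG.tg
  constructor
  · intro hs
    obtain ⟨C, hC⟩ := exists_badSeq hG hN (ι := Empty) (fun _ => G) (fun _ => ⊥)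
      (fun i => i.elim) (fun i => i.elim) hs
    obtain ⟨V₀, h₀, hc⟩ := exists_V₀ hG
    have hCL : ∀ n, LocPerfect (C n) := fun n => (hC n).1
    refine ⟨fun n => C n ⊔ vseq V₀ C n, C, fun n => hC.isOpen hG h₀ n,
      fun n => (hC.ll hG hN h₀ hc n).noncompact, fun n => (hC.ll hG hN h₀ hc n).le,
      fun n => ?_, fun n => (hCL n).closed, fun n => (hCL n).ne_bot,
      fun n => ⟨vseq V₀ C n, vseq_open V₀ C h₀ hCL n, vseq_compact hG V₀ C h₀ hc hCL n, rfl⟩,
      fun n => ?_, fun n => (hCL n).perf, fun n => (hC n).2.2.1, fun n U hU => ?_,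
      fun n => (hC n).2.2.2, fun n V _ T hT g hg v => ?_⟩
    · exact relIndex_sup hG hN (C n) (C (n + 1)) _ _ (hCL n) (hCL (n + 1))
        (vseq_open V₀ C h₀ hCL n) (vseq_norm V₀ C n) (vseq_open V₀ C h₀ hCL (n + 1))
        (vseq_compact hG V₀ C h₀ hc hCL (n + 1)) (vseq_norm V₀ C (n + 1)) (hC n).2.2.1
        (hC n).2.2.2
    · intro h hh x hx
      have h4 : C n ⊔ vseq V₀ C n ≤ Subgroup.normalizer (C n : Set G) :=
        sup_le Subgroup.le_normalizer (vseq_norm V₀ C n)
      exact (Subgroup.mem_normalizer_iff.1 (h4 hh) x).1 hx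
    · obtain ⟨N, hNs⟩ := hC.exists_sker hG hN n
      exact relIndex_open hG (C n) N (C (n + 1)) U (hCL n).closed hNs ((hC n).2.2.2 N hNs) hU
    · have h1 : TreeAct (C n ⊔ vseq V₀ C n : Subgroup G) V T := ⟨hT.tree, hT.lf, hT.adj⟩
      have h2 : ∀ v : V, IsOpen ((MulAction.stabilizer (C n ⊔ vseq V₀ C n : Subgroup G) v :
          Subgroup (C n ⊔ vseq V₀ C n : Subgroup G)) : Set (C n ⊔ vseq V₀ C n : Subgroup G)) :=
        fun v => hT.stab v
      exact res_trivial hG hN (C (n + 1) ⊔ vseq V₀ C (n + 1)) (C n ⊔ vseq V₀ C n) (C (n + 1))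
        (hC.isOpen hG h₀ (n + 1)) (hC.isOpen hG h₀ n) (hC.ll hG hN h₀ hc n)
        (isResOmega_sup hG hN (C (n + 1)) (vseq V₀ C (n + 1)) (hCL (n + 1))
          (vseq_open V₀ C h₀ hCL (n + 1)) (vseq_compact hG V₀ C h₀ hc hCL (n + 1))
          (vseq_norm V₀ C (n + 1))) h1 h2 g hg v
  · rintro ⟨H, C, h⟩
    have hb : BadSeq (⊤ : Subgroup G) C := by
      intro n
      refine ⟨⟨h.closed n, h.ne_bot n, ?_, h.perf n⟩, le_top, h.leC n, h.ker n⟩
      refine Subgroup.isOpen_mono ?_ (h.openH n)
      intro g hg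
      rw [Subgroup.mem_normalizer_iff]
      intro x
      refine ⟨fun hx => h.normal n g hg x hx, fun hx => ?_⟩
      have h4 := h.normal n g⁻¹ ((H n).inv_mem hg) _ hx
      have h5 : g⁻¹ * (g * x * g⁻¹) * g⁻¹⁻¹ = x := by group
      rwa [h5] at h4
    exact hb.not_swf hG hN

end Pool.Agent.Results.MP_14eb16_al.DescendingPairs
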