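import Mathlib
import Pool.Agent.Lib.H87N.Defs
import Pool.Agent.Lib.H87N.T00
import Pool.Agent.Lib.H87N.Z04

/-!
# If `H ≪ K` in a Noetherian group, `Res^ω(H)` fixes every locally finite tree on which `K` acts

`G` is an arbitrary Noetherian t.d.l.c.s.c. group, `K` a compactly generated open subgroup with
`R = Res^ω(K)`, acting on a locally finite tree `T` with open vertex stabilisers. Then the
intersection of `R` with all closed normal subgroups `N` of `R` with `R / N ∈ 𝒮` has finite orbits on
`T`, and for every `H ≪ K` the group `Res^ω(H)` fixes every vertex of `T`.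
-/

set_option autoImplicit false

namespace Pool.Agent.Results.MP_14eb16_al.ResidualFixesTrees

open Pool.H87N

/-- `Γ` acts by automorphisms on the locally finite tree `T`, with open vertex stabilisers. -/
structure ActsOnTree (Γ V : Type) [Group Γ] [TopologicalSpace Γ] [MulAction Γ V]
    (T : SimpleGraph V) : Prop where
  /-- `T` is a tree. -/
  tree : T.IsTree
  /-- Every vertex has finitely many neighbours. -/
  lf : ∀ v : V, (T.neighborSet v).Finite
  /-- `Γ` acts by automorphisms. -/
  adj : ∀ (g : Γ) (v w : V), T.Adj v w → T.Adj (g • v) (g • w)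
  /-- The vertex stabilisers are open. -/
  stab : ∀ v : V, IsOpen {g : Γ | g • v = v}

theorem result (G : Type) [Group G] [TopologicalSpace G] (hG : Tdlcsc G) (hN : Noeth G)
    (K : Oc G) (R : Subgroup G) (hR : IsResOmega K.1 R) (V : Type) [MulAction K.1 V]
    (T : SimpleGraph V) (hT : ActsOnTree K.1 V T) :
    (∀ v : V, {w : V | ∃ g : K.1, (g : G) ∈ R ∧ (∀ N : Subgroup G, SKer R N → (g : G) ∈ N) ∧
      g • v = w}.Finite) ∧
    ∀ (H : Oc G) (S : Subgroup G), LL H.1 K.1 → IsResOmega H.1 S →
      ∀ g : K.1, (g : G) ∈ S → ∀ v : V, g • v = v := by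
  have h1 : TreeAct K.1 V T := ⟨hT.tree, hT.lf, hT.adj⟩
  have h2 : ∀ v : V, IsOpen ((MulAction.stabilizer K.1 v : Subgroup K.1) : Set K.1) :=
    fun v => hT.stab v
  refine ⟨fun v => ?_, fun H S hHK hS g hg v => ?_⟩
  · refine (core_orbits hG hN K.1 R K.2.1 hR h1 h2 v).subset ?_
    rintro w ⟨g, hgR, hgN, rfl⟩
    refine ⟨g, ?_, rfl⟩
    change (g : G) ∈ Core R
    rw [Core, Subgroup.mem_inf, Subgroup.mem_sInf]
    exact ⟨hgR, fun N hN => hgN N hN⟩
  · exact res_trivial hG hN H.1 K.1 S H.2.1 K.2.1 hHK hS h1 h2 g hg v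

end Pool.Agent.Results.MP_14eb16_al.ResidualFixesTrees
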