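import Mathlib
import Pool.Agent.Lib.H87N.Defs
import Pool.Agent.Lib.H87N.T00
import Pool.Agent.Lib.H87N.Z05

/-!
# Noetherian groups acting on locally finite trees are `𝒮`-well-founded

`G` is a Noetherian t.d.l.c.s.c. group which acts on a family of locally finite trees with open
vertex stabilisers. If the common kernel of the actions is elementary (for example if it is trivial
or compact), then `G` is `𝒮`-well-founded and there is no chain `H₁ ≫ H₂ ≫ H₃ ≫ H₄`. No
independence property is required, and the image of `G` need not be closed.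
-/

set_option autoImplicit false

namespace Pool.Agent.Results.MP_14eb16_al.TreeActions

open Pool.H87N

/-- `Γ` acts by automorphisms on the locally finite tree `T`, with open vertex stabilisers. -/
structure ActsOnTree (Γ V : Type) [Group Γ] [TopologicalSpace Γ] [MulAction Γ V]
    (T : SimpleGraph V) : Prop where
  /-- `T` is a tree. -/
  tree : T.IsTree
  /-- Every vertex has finitely many neighbours. -/
  lf : ∀ v : V, (T.neighborSet v).Finite
  /-- `Γ` acts by automorphisms. -/
  adj : ∀ (g : Γ) (v w : V), T.Adj v w → T.Adj (g • v) (g • w)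
  /-- The vertex stabilisers are open. -/
  stab : ∀ v : V, IsOpen {g : Γ | g • v = v}

theorem result (G : Type) [Group G] [TopologicalSpace G] (hG : Tdlcsc G) (hN : Noeth G)
    (ι : Type) (V : ι → Type) [∀ i, MulAction G (V i)] (T : ∀ i, SimpleGraph (V i))
    (hT : ∀ i, ActsOnTree G (V i) (T i)) (Z : Subgroup G)
    (hZ : ∀ g : G, g ∈ Z ↔ ∀ i, ∀ v : V i, g • v = v) (he : Elementary Z) :
    SWF G ∧ ∀ H₁ H₂ H₃ H₄ : Oc G, ¬ (LL H₂.1 H₁.1 ∧ LL H₃.1 H₂.1 ∧ LL H₄.1 H₃.1) := by
  have h1 : ∀ i, TreeAct G (V i) (T i) := fun i => ⟨(hT i).tree, (hT i).lf, (hT i).adj⟩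
  have h2 : ∀ i, ∀ v : V i, IsOpen ((MulAction.stabilizer G v : Subgroup G) : Set G) :=
    fun i v => (hT i).stab v
  have h3 : Z = JKer G V := by
    ext g
    rw [hZ, JKer]
    simp only [Subgroup.mem_iInf, MulAction.mem_stabilizer_iff]
  subst h3
  have h4 := no_chain hG hN V T h1 h2 he
  exact ⟨swf_of_no_chain h4, h4⟩

end Pool.Agent.Results.MP_14eb16_al.TreeActions
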